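import Mathlib
import Pool.Agent.Q35.GM.Stm
import Pool.Agent.Q298.SM.T1

/-!
Project GM: basic lemmas on the bilinear forms, Pluecker coordinates, and counting of algebraically
independent elements
-/

set_option autoImplicit false

namespace Pool.Agent.Q68.GM

open Finset Function MvPolynomial
open Pool.Agent.Q35.GM

section

variable {K : Type} [Field K] {m : ℕ}

theorem bil_add_right (F : Type) [CommRing F] [Algebra K F] (M : Matrix (Fin m) (Fin m) K)
    (x y z : Fin m → F) : bil F M x (y + z) = bil F M x y + bil F M x z := by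
  unfold bil
  rw [← Finset.sum_add_distrib]
  refine Finset.sum_congr rfl fun p _ => ?_
  rw [← Finset.sum_add_distrib]
  refine Finset.sum_congr rfl fun q _ => ?_
  rw [Pi.add_apply]
  ring

theorem bil_smul_right (F : Type) [CommRing F] [Algebra K F] (M : Matrix (Fin m) (Fin m) K)
    (x y : Fin m → F) (c : F) : bil F M x (c • y) = c * bil F M x y := by
  unfold bil
  rw [Finset.mul_sum]
  refine Finset.sum_congr rfl fun p _ => ?_
  rw [Finset.mul_sum]
  refine Finset.sum_congr rfl fun q _ => ?_
  rw [Pi.smul_apply, smul_eq_mul]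
  ring

theorem bil_add_left (F : Type) [CommRing F] [Algebra K F] (M : Matrix (Fin m) (Fin m) K)
    (x y z : Fin m → F) : bil F M (x + y) z = bil F M x z + bil F M y z := by
  unfold bil
  rw [← Finset.sum_add_distrib]
  refine Finset.sum_congr rfl fun p _ => ?_
  rw [← Finset.sum_add_distrib]
  refine Finset.sum_congr rfl fun q _ => ?_
  rw [Pi.add_apply]
  ring

theorem bil_smul_left (F : Type) [CommRing F] [Algebra K F] (M : Matrix (Fin m) (Fin m) K)
    (x y : Fin m → F) (c : F) : bil F M (c • x) y = c * bil F M x y := by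
  unfold bil
  rw [Finset.mul_sum]
  refine Finset.sum_congr rfl fun p _ => ?_
  rw [Finset.mul_sum]
  refine Finset.sum_congr rfl fun q _ => ?_
  rw [Pi.smul_apply, smul_eq_mul]
  ring

/-- the bilinear form as a linear map in the second argument -/
def bilR (F : Type) [CommRing F] [Algebra K F] (M : Matrix (Fin m) (Fin m) K)
    (x : Fin m → F) : (Fin m → F) →ₗ[F] F where
  toFun y := bil F M x y
  map_add' y z := bil_add_right F M x y z
  map_smul' c y := by
    rw [bil_smul_right, RingHom.id_apply, smul_eq_mul]

theorem bil_single_right (F : Type) [CommRing F] [Algebra K F] (M : Matrix (Fin m) (Fin m) K)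
    (x : Fin m → F) (q : Fin m) :
    bil F M x (Pi.single q 1) = ∑ p, algebraMap K F (M p q) * x p := by
  unfold bil
  refine Finset.sum_congr rfl fun p _ => ?_
  rw [Finset.sum_eq_single q]
  · rw [Pi.single_eq_same, mul_one]
  · intro b _ hb
    rw [Pi.single_eq_of_ne hb, mul_zero, mul_zero]
  · intro h
    exact absurd (Finset.mem_univ _) h

theorem bil_expand (F : Type) [CommRing F] [Algebra K F] (M : Matrix (Fin m) (Fin m) K)
    (x y : Fin m → F) : bil F M x y = ∑ a, y a * bil F M x (Pi.single a 1) := by
  simp only [bil_single_right]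
  unfold bil
  rw [Finset.sum_comm]
  refine Finset.sum_congr rfl fun q _ => ?_
  rw [Finset.mul_sum]
  refine Finset.sum_congr rfl fun p _ => ?_
  ring

theorem bil_skew (F : Type) [CommRing F] [Algebra K F] (M : Matrix (Fin m) (Fin m) K)
    (hM : Alt M) (x y : Fin m → F) : bil F M x y = -bil F M y x := by
  unfold bil
  rw [Finset.sum_comm, ← Finset.sum_neg_distrib]
  refine Finset.sum_congr rfl fun q _ => ?_
  rw [← Finset.sum_neg_distrib]
  refine Finset.sum_congr rfl fun p _ => ?_
  have h : M p q = -M q p := by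
    have := congrFun (congrFun hM.1 q) p
    rw [Matrix.transpose_apply, Matrix.neg_apply] at this
    exact this
  rw [h, map_neg]
  ring

theorem bil_self [CharZero K] (F : Type) [Field F] [Algebra K F] (M : Matrix (Fin m) (Fin m) K)
    (hM : Alt M) (x : Fin m → F) : bil F M x x = 0 := by
  have _ : CharZero F := charZero_of_injective_algebraMap (algebraMap K F).injective
  have h := bil_skew F M hM x x
  have h2 : (2 : F) * bil F M x x = 0 := by linear_combination h
  rcases mul_eq_zero.1 h2 with h3 | h3
  · exact absurd h3 two_ne_zero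
  · exact h3

theorem bil_map {A B : Type} [CommRing A] [Algebra K A] [CommRing B] [Algebra K B] (φ : A →ₐ[K] B)
    (M : Matrix (Fin m) (Fin m) K) (x y : Fin m → A) :
    bil B M (fun a => φ (x a)) (fun a => φ (y a)) = φ (bil A M x y) := by
  unfold bil
  rw [map_sum]
  refine Finset.sum_congr rfl fun p _ => ?_
  rw [map_sum]
  refine Finset.sum_congr rfl fun q _ => ?_
  rw [map_mul, map_mul, AlgHom.commutes]

theorem bil_map_single {A B : Type} [CommRing A] [Algebra K A] [CommRing B] [Algebra K B]
    (φ : A →ₐ[K] B) (M : Matrix (Fin m) (Fin m) K) (x : Fin m → A) (q : Fin m) :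
    bil B M (fun a => φ (x a)) (Pi.single q 1) = φ (bil A M x (Pi.single q 1)) := by
  rw [bil_single_right, bil_single_right, map_sum]
  refine Finset.sum_congr rfl fun p _ => ?_
  rw [map_mul, AlgHom.commutes]

theorem li_iff_plu {F : Type} [Field F] (x y : Fin m → F) :
    LinearIndependent F ![x, y] ↔ plu x y ≠ 0 := by
  rw [LinearIndependent.pair_iff]
  constructor
  · intro h h0
    have hx : x ≠ 0 := by
      rintro rfl
      have := (h 1 0 (by simp)).1
      exact one_ne_zero this
    obtain ⟨a, ha⟩ := Function.ne_iff.1 hx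
    have h1 := h (y a) (-x a) (by
      funext b
      have h2 := congrFun h0 (a, b)
      simp only [plu, Pi.zero_apply] at h2
      simp only [Pi.add_apply, Pi.smul_apply, smul_eq_mul, Pi.zero_apply]
      linear_combination -h2)
    exact ha (neg_eq_zero.1 h1.2)
  · intro h s t hst
    obtain ⟨⟨a, b⟩, hab⟩ := Function.ne_iff.1 h
    simp only [plu, Pi.zero_apply] at hab
    have ea := congrFun hst a
    have eb := congrFun hst b
    simp only [Pi.add_apply, Pi.smul_apply, smul_eq_mul, Pi.zero_apply] at ea eb
    constructor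
    · have h1 : s * (x a * y b - x b * y a) = 0 := by linear_combination y b * ea - y a * eb
      exact (mul_eq_zero.1 h1).resolve_right hab
    · have h1 : t * (x a * y b - x b * y a) = 0 := by linear_combination x a * eb - x b * ea
      exact (mul_eq_zero.1 h1).resolve_right hab

/-- the zero vector is not good -/
theorem not_gd_zero {k : ℕ} (hk : 1 ≤ k) (F : Type) [Field F] [Algebra K F]
    (M : Fin k → Matrix (Fin m) (Fin m) K) : ¬ Gd F M (fun _ => 0) := by
  intro h
  have h1 := h.ne_zero ⟨0, hk⟩
  apply h1
  funext a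
  rw [bil_single_right]
  simp

end

/-! ## Counting -/

section

variable {K F : Type} [Field K] [Field F] [Algebra K F]

theorem cnt_set {ι : Type} [Fintype ι] (S : Finset F) (w : ι → F)
    (hw : ∀ i, IsAlgebraic (Algebra.adjoin K (S : Set F)) (w i)) (h : AlgebraicIndependent K w) :
    Fintype.card ι ≤ S.card := by
  have h1 : (AlgebraicIndependent.matroid K F).Indep (Set.range w) := by
    rw [AlgebraicIndependent.matroid_indep_iff]
    exact h.to_subtype_range
  have h2 : Set.range w ⊆ (AlgebraicIndependent.matroid K F).closure (S : Set F) := by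
    rw [AlgebraicIndependent.matroid_closure_eq]
    rintro _ ⟨i, rfl⟩
    exact hw i
  have h3 := h1.encard_le_eRk_of_subset h2
  rw [Matroid.eRk_closure_eq] at h3
  have h4 := h3.trans ((AlgebraicIndependent.matroid K F).eRk_le_encard (S : Set F))
  rw [Set.encard_coe_eq_coe_finsetCard] at h4
  have h5 : (Set.range w).encard = Fintype.card ι := by
    rw [← Set.image_univ, h.injective.injOn.encard_image, Set.encard_univ,
      ENat.card_eq_coe_fintype_card]
  rw [h5] at h4
  exact_mod_cast h4

theorem alg_of_mem (S : Set F) (w : F) (hw : w ∈ IntermediateField.adjoin K S) :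
    IsAlgebraic (Algebra.adjoin K S) w := by
  obtain ⟨x, hx, y, hy, rfl⟩ := IntermediateField.mem_adjoin_iff_div.1 hw
  have h1 : IsAlgebraic (Algebra.adjoin K S) x :=
    isAlgebraic_algebraMap (⟨x, hx⟩ : Algebra.adjoin K S)
  have h2 : IsAlgebraic (Algebra.adjoin K S) y :=
    isAlgebraic_algebraMap (⟨y, hy⟩ : Algebra.adjoin K S)
  rw [div_eq_mul_inv]
  exact h1.mul h2.inv

theorem cnt_adjoin {ι : Type} [Fintype ι] (S : Finset F) (w : ι → F)
    (hw : ∀ i, w i ∈ IntermediateField.adjoin K (S : Set F)) (h : AlgebraicIndependent K w) :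
    Fintype.card ι ≤ S.card :=
  cnt_set S w (fun i => alg_of_mem _ _ (hw i)) h

/-- solutions of linear systems are in the field generated by the coefficients -/
theorem mem_of_mulVec (L : IntermediateField K F) {r : ℕ} (N : Matrix (Fin r) (Fin r) F)
    (hN : ∀ i j, N i j ∈ L) (hdet : N.det ≠ 0) (v b : Fin r → F) (hb : ∀ i, b i ∈ L)
    (h : N.mulVec v = b) (i : Fin r) : v i ∈ L := by
  let NL : Matrix (Fin r) (Fin r) L := fun i j => ⟨N i j, hN i j⟩
  let bL : Fin r → L := fun i => ⟨b i, hb i⟩
  have hmap : NL.map (algebraMap L F) = N := by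
    ext i j
    rfl
  have hd : NL.det ≠ 0 := by
    intro h0
    apply hdet
    rw [← hmap, ← RingHom.mapMatrix_apply, ← RingHom.map_det, h0, map_zero]
  have hw : NL.mulVec (NL⁻¹.mulVec bL) = bL := by
    rw [Matrix.mulVec_mulVec, Matrix.mul_nonsing_inv _ (isUnit_iff_ne_zero.2 hd), Matrix.one_mulVec]
  obtain ⟨w, hwd⟩ : ∃ w, w = NL⁻¹.mulVec bL := ⟨_, rfl⟩
  rw [← hwd] at hw
  have h2 : N.mulVec (v - fun i => (w i : F)) = 0 := by
    rw [Matrix.mulVec_sub, h, sub_eq_zero]
    funext i
    have h3 := congrArg (algebraMap L F) (congrFun hw i)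
    change b i = _
    have h4 : algebraMap L F (bL i) = b i := rfl
    rw [← h4, ← h3]
    simp only [Matrix.mulVec, dotProduct, map_sum, map_mul]
    rfl
  have h3 := Matrix.eq_zero_of_mulVec_eq_zero hdet h2
  have h4 := congrFun h3 i
  rw [Pi.sub_apply, Pi.zero_apply, sub_eq_zero] at h4
  rw [h4]
  exact (w i).2

end

end Pool.Agent.Q68.GM
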