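import Pool.Agent.Q68.GM.Bas
import Pool.Agent.Q298.SM.D

/-!
Project GM, job CUTX: for good `x` the bad `y` have large codimension
-/

set_option autoImplicit false

namespace Pool.Agent.Q68.GM

open Finset Function MvPolynomial
open Pool.Agent.Q35.GM
open Pool.Agent.Q35.SM (Cof Vs Var Pol ev pv MH Opn Cut)
open Pool.Agent.Q298.SM (sb1 sb1_eval sb1_hom exists_minor linInd_of_minor)

section

variable {K : Type} [Field K] {m k : ℕ}

theorem gd_ext {F Ω : Type} [Field F] [Algebra K F] [Field Ω] [Algebra K Ω] (φ : F →ₐ[K] Ω)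
    (M : Fin k → Matrix (Fin m) (Fin m) K) (x : Fin m → F) (h : Gd F M x) :
    Gd Ω M (fun a => φ (x a)) := by
  let A0 : Matrix (Fin k) (Fin m) F := fun t a => bil F (M t) x (Pi.single a 1)
  let A1 : Matrix (Fin k) (Fin m) Ω := fun t a => bil Ω (M t) (fun b => φ (x b)) (Pi.single a 1)
  obtain ⟨f, hf⟩ := exists_minor A0 h
  refine linInd_of_minor A1 f ?_
  have h1 : A1.submatrix id f = (A0.submatrix id f).map φ := by
    ext t a
    exact bil_map_single φ (M t) x (f a)
  have h2 : ((A0.submatrix id f).map φ).det = φ (A0.submatrix id f).det := by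
    rw [AlgHom.map_det]
    rfl
  rw [h1, h2]
  intro h0
  exact hf (φ.toRingHom.injective (h0.trans (map_zero φ).symm))

/-- a finite generating set of a vector in which all independent sets of coordinates are small -/
theorem exists_gens {Ω : Type} [Field Ω] [Algebra K Ω] (w : Fin m → Ω) (c : ℕ)
    (h : ∀ B : Finset (Fin m), (AlgebraicIndependent K fun b : B => w b) → B.card ≤ c) :
    ∃ S : Finset Ω, S.card ≤ c ∧ ∀ a, IsAlgebraic (Algebra.adjoin K (S : Set Ω)) (w a) := by
  classical
  obtain ⟨I, hI⟩ := (AlgebraicIndependent.matroid K Ω).exists_isBasis (Set.range w)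
  rw [AlgebraicIndependent.matroid_isBasis_iff] at hI
  obtain ⟨hI1, hI2, hI3⟩ := hI
  have hfin : I.Finite := (Set.finite_range w).subset hI2
  have _ : Fintype I := hfin.fintype
  choose a ha using fun u : I => hI2 u.2
  have ha' : ∀ u : I, w (a u) = (u : Ω) := ha
  have hinj : Injective a := by
    intro u u' hu
    have : w (a u) = w (a u') := by rw [hu]
    rw [ha', ha'] at this
    exact Subtype.ext this
  have hB := h (univ.image a) (by
    have hmem : ∀ b : (Finset.univ.image a : Finset (Fin m)), w b ∈ I := by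
      rintro ⟨b, hb⟩
      obtain ⟨u, -, rfl⟩ := Finset.mem_image.1 hb
      change w (a u) ∈ I
      rw [ha']
      exact u.2
    apply AlgebraicIndependent.comp hI1
      (fun b : (Finset.univ.image a : Finset (Fin m)) => (⟨w b, hmem b⟩ : I))
    rintro ⟨b, hb⟩ ⟨b', hb'⟩ h
    obtain ⟨u, -, rfl⟩ := Finset.mem_image.1 hb
    obtain ⟨u', -, rfl⟩ := Finset.mem_image.1 hb'
    have h2 : w (a u) = w (a u') := congrArg Subtype.val h
    rw [ha', ha'] at h2
    have h3 : u = u' := Subtype.ext h2
    subst h3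
    rfl)
  rw [Finset.card_image_of_injective _ hinj, Finset.card_univ] at hB
  refine ⟨hfin.toFinset, ?_, ?_⟩
  · rw [← Set.toFinset_card] at hB
    have h4 : hfin.toFinset = I.toFinset := by
      ext u
      rw [Set.Finite.mem_toFinset, Set.mem_toFinset]
    rw [h4]
    exact hB
  · intro b
    rw [Set.Finite.coe_toFinset]
    exact hI3 _ ⟨b, rfl⟩

theorem alg_mono {Ω : Type} [Field Ω] [Algebra K Ω] {S T : Set Ω} (hST : S ⊆ T) {w : Ω}
    (h : IsAlgebraic (Algebra.adjoin K S) w) : IsAlgebraic (Algebra.adjoin K T) w := by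
  have h1 : w ∈ (AlgebraicIndependent.matroid K Ω).closure S := by
    rw [AlgebraicIndependent.matroid_closure_eq]
    exact h
  have h2 := (AlgebraicIndependent.matroid K Ω).closure_subset_closure hST h1
  rw [AlgebraicIndependent.matroid_closure_eq] at h2
  exact h2

theorem cnt_shift {Ω : Type} [Field Ω] [Algebra K Ω] (S : Finset Ω) (w y : Fin m → Ω) (c : Ω)
    (x : Fin m → K) (hS : ∀ a, IsAlgebraic (Algebra.adjoin K (S : Set Ω)) (w a))
    (hy : ∀ a, y a = w a - c * algebraMap K Ω (x a)) (B : Finset (Fin m))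
    (h : AlgebraicIndependent K fun b : B => y b) : B.card ≤ S.card + 1 := by
  classical
  have hfin := cnt_set (insert c S) (fun b : B => y b) (by
      intro b
      rw [hy]
      obtain ⟨T, hT⟩ : ∃ T : Set Ω, T = ((insert c S : Finset Ω) : Set Ω) := ⟨_, rfl⟩
      rw [← hT]
      have hc : c ∈ T := by
        rw [hT]
        exact Finset.mem_coe.2 (Finset.mem_insert_self _ _)
      have g1 : IsAlgebraic (Algebra.adjoin K T) (w b) := by
        refine alg_mono ?_ (hS b)
        rw [hT, Finset.coe_insert]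
        exact Set.subset_insert _ _
      have g2 : IsAlgebraic (Algebra.adjoin K T) c :=
        isAlgebraic_algebraMap (⟨c, Algebra.subset_adjoin hc⟩ : Algebra.adjoin K T)
      have g3 : IsAlgebraic (Algebra.adjoin K T) (algebraMap K Ω (x b)) :=
        isAlgebraic_algebraMap (algebraMap K (Algebra.adjoin K T) (x b))
      exact g1.sub (g2.mul g3)) h
  rw [Fintype.card_coe] at hfin
  exact hfin.trans (Finset.card_insert_le _ _)

end

/-- job GM-CUTX -/
theorem cutx : Pool.Agent.Q35.SM.S_B → S_KER → S_CUTX := by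
  classical
  intro hB hKer K _ _ N k M A hk h2k hAlt hS hMH hOp x hx
  by_contra hcut
  have hcut' : ∀ Mt : Matrix (Fin (N + 1)) (Fin (N + 1 - 2 * k)) K,
      ∃ z : Fin (N + 1 - 2 * k) → AlgebraicClosure K, z ≠ 0 ∧ ¬ Opn (AlgebraicClosure K) A
        (update (fun l a => algebraMap K (AlgebraicClosure K) (x l a)) 1
          (fun a => ∑ b, algebraMap K (AlgebraicClosure K) (Mt a b) * z b)) := by
    intro Mt
    by_contra hcon
    push Not at hcon
    exact hcut ⟨Mt, hcon⟩
  obtain ⟨F', _, _, y, B, hy, hBc, hind⟩ := hB K K (N + 1) (N + 1 - 2 * k) (by omega)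
    (A.image (sb1 K x 1)) (by
      intro g hg
      obtain ⟨g', hg', rfl⟩ := Finset.mem_image.1 hg
      exact sb1_hom K x 1 g' (hMH g' hg')) (by
      intro Mt
      obtain ⟨z, hz, hop⟩ := hcut' Mt
      refine ⟨z, hz, ?_⟩
      intro g hg
      obtain ⟨g', hg', rfl⟩ := Finset.mem_image.1 hg
      refine (sb1_eval K x 1 g' (AlgebraicClosure K) _).trans ?_
      by_contra hne
      exact hop ⟨g', hg', hne⟩)
  have hnop : ¬ Opn F' A (update (fun l a => algebraMap K F' (x l a)) 1 y) := by
    rintro ⟨g, hg, hne⟩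
    apply hne
    rw [← sb1_eval K x 1 g F' y]
    exact hy _ (Finset.mem_image_of_mem _ hg)
  rw [hOp] at hnop
  unfold All at hnop
  push Not at hnop
  obtain ⟨z, hz, hgd⟩ := hnop
  rw [update_self, update_of_ne (by decide)] at hgd
  have hgd0 : Gd (AlgebraicClosure F') M (fun a => algebraMap K (AlgebraicClosure F') (x 0 a)) :=
    gd_ext (Algebra.ofId K (AlgebraicClosure F')) M (x 0) hx
  have htow : ∀ a, algebraMap F' (AlgebraicClosure F') (algebraMap K F' (x 0 a)) =
      algebraMap K (AlgebraicClosure F') (x 0 a) := fun a =>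
    (IsScalarTower.algebraMap_apply K F' (AlgebraicClosure F') (x 0 a)).symm
  simp only [htow] at hgd
  unfold Gd at hgd
  rw [Fintype.not_linearIndependent_iff] at hgd
  obtain ⟨μ, hμ1, t, ht⟩ := hgd
  have hμ : μ ≠ 0 := fun h => ht (congrFun h t)
  set xΩ : Fin (N + 1) → AlgebraicClosure F' := fun a => algebraMap K (AlgebraicClosure F') (x 0 a)
    with hxΩ
  set yΩ : Fin (N + 1) → AlgebraicClosure F' := fun a => algebraMap F' (AlgebraicClosure F') (y a)
    with hyΩ
  have hw : (fun a => z 0 * algebraMap K (AlgebraicClosure F') (x 0 a) +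
      z 1 * algebraMap F' (AlgebraicClosure F') (y a)) = z 0 • xΩ + z 1 • yΩ := by
    funext a
    rfl
  have h1 : ∀ q, ∑ t, μ t * bil (AlgebraicClosure F') (M t) (z 0 • xΩ + z 1 • yΩ)
      (Pi.single q 1) = 0 := by
    intro q
    have h2 := congrFun hμ1 q
    rw [Finset.sum_apply, Pi.zero_apply] at h2
    rw [← h2]
    refine Finset.sum_congr rfl fun t _ => ?_
    rw [Pi.smul_apply, smul_eq_mul, ← hw]
  have hz1 : z 1 ≠ 0 := by
    intro hz1
    have hz0 : z 0 ≠ 0 := by
      intro hz0
      apply hz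
      funext i
      fin_cases i
      · exact hz0
      · exact hz1
    apply ht
    refine Fintype.linearIndependent_iff.1 hgd0 μ ?_ t
    funext q
    have h2 := h1 q
    rw [hz1, zero_smul, add_zero] at h2
    simp only [bil_smul_left] at h2
    rw [Finset.sum_apply, Pi.zero_apply]
    have h3 : z 0 * ∑ t, μ t * bil (AlgebraicClosure F') (M t) xΩ (Pi.single q 1) = 0 := by
      rw [← h2, Finset.mul_sum]
      refine Finset.sum_congr rfl fun t _ => ?_
      ring
    have h4 := (mul_eq_zero.1 h3).resolve_left hz0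
    rw [← h4]
    refine Finset.sum_congr rfl fun t _ => ?_
    rw [Pi.smul_apply, smul_eq_mul]
  obtain ⟨w', hw'⟩ : ∃ w', w' = (z 1)⁻¹ • (z 0 • xΩ + z 1 • yΩ) := ⟨_, rfl⟩
  have h5 : ∀ v : Fin (N + 1) → AlgebraicClosure F',
      ∑ t, μ t * bil (AlgebraicClosure F') (M t) w' v = 0 := by
    intro v
    have h6 : ∀ t, μ t * bil (AlgebraicClosure F') (M t) w' v =
        ∑ a, v a * ((z 1)⁻¹ * (μ t * bil (AlgebraicClosure F') (M t) (z 0 • xΩ + z 1 • yΩ)
          (Pi.single a 1))) := by
      intro t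
      rw [bil_expand, Finset.mul_sum]
      refine Finset.sum_congr rfl fun a _ => ?_
      rw [hw', bil_smul_left]
      ring
    simp only [h6]
    rw [Finset.sum_comm]
    refine Finset.sum_eq_zero fun a _ => ?_
    rw [← Finset.mul_sum, ← Finset.mul_sum, h1 a, mul_zero, mul_zero]
  obtain ⟨S, hSc, hSa⟩ := exists_gens (K := K) w' (2 * k - 1) (by
    intro B' hB'
    have := hKer K (N + 1) k M hAlt hS (AlgebraicClosure F') μ w' B' hμ h5 hB'
    omega)
  have hyw : ∀ a, algebraMap F' (AlgebraicClosure F') (y a) =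
      w' a - ((z 1)⁻¹ * z 0) * algebraMap K (AlgebraicClosure F') (x 0 a) := by
    intro a
    rw [hw']
    simp only [Pi.smul_apply, Pi.add_apply, smul_eq_mul, hxΩ, hyΩ]
    field_simp
    ring
  have hind2 : AlgebraicIndependent K fun b : B => algebraMap F' (AlgebraicClosure F') (y b) :=
    hind.map' (f := IsScalarTower.toAlgHom K F' (AlgebraicClosure F'))
      (algebraMap F' (AlgebraicClosure F')).injective
  have h7 := cnt_shift S w' yΩ ((z 1)⁻¹ * z 0) (x 0) hSa hyw B hind2
  omega

end Pool.Agent.Q68.GM
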