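import Pool.Agent.Q68.GM.Cutx

/-!
Project GM, job ELA: elimination, in the coordinates of two vectors
-/

set_option autoImplicit false

namespace Pool.Agent.Q68.GM

open Finset Function MvPolynomial
open Pool.Agent.Q35.GM
open Pool.Agent.Q35.SM (Cof Vs Var Pol ev pv MH Opn Cut)
open Pool.Agent.Q298.SM (exists_minor linInd_of_minor wt mh_iff weight_wt det_wh)

/-! ## Homogeneous components -/

section

variable {K : Type} [Field K] {ι : Type} [Fintype ι] [DecidableEq ι] {n : ι → ℕ}

omit [Fintype ι] in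
theorem comp_sum (g : Pol K n) [DecidableEq (ι → ℕ)] :
    g = ∑ δ ∈ g.support.image (Finsupp.weight (wt n)), weightedHomogeneousComponent (wt n) δ g := by
  ext d
  rw [coeff_sum]
  simp only [coeff_weightedHomogeneousComponent]
  rw [Finset.sum_ite_eq]
  split_ifs with h
  · rfl
  · by_contra hne
    exact h (Finset.mem_image_of_mem _ (mem_support_iff.2 hne))

theorem wh_smul {F : Type} [Field F] [Algebra K F] (h : Pol K n) (δ : ι → ℕ)
    (hh : IsWeightedHomogeneous (wt n) h δ) (s : ι → F) (x : Vs F n) :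
    pv F h (fun i a => s i * x i a) = (∏ i, s i ^ δ i) * pv F h x := by
  unfold pv
  rw [aeval_def, aeval_def, eval₂_eq', eval₂_eq', Finset.mul_sum]
  refine Finset.sum_congr rfl fun m hm => ?_
  have h1 := hh (mem_support_iff.1 hm)
  rw [weight_wt] at h1
  have h2 : ∏ v : Var n, (s v.1 * x v.1 v.2) ^ m v =
      (∏ i, s i ^ δ i) * ∏ v : Var n, x v.1 v.2 ^ m v := by
    simp only [mul_pow]
    rw [Finset.prod_mul_distrib]
    congr 1
    rw [Fintype.prod_sigma]
    refine Finset.prod_congr rfl fun i _ => ?_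
    rw [← congrFun h1 i]
    exact Finset.prod_pow_eq_pow_sum univ (fun a => m ⟨i, a⟩) (s i)
  rw [h2]
  ring

/-- if a component does not vanish, then the polynomial does not vanish after some scaling -/
theorem exists_scale [Infinite K] {F : Type} [Field F] [Algebra K F] (g : Pol K n) (x : Vs F n)
    (δ0 : ι → ℕ) (h0 : pv F (weightedHomogeneousComponent (wt n) δ0 g) x ≠ 0) :
    ∃ s : ι → K, (∀ i, s i ≠ 0) ∧ pv F g (fun i a => algebraMap K F (s i) * x i a) ≠ 0 := by
  classical
  set D := g.support.image (Finsupp.weight (wt n)) with hD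
  let P : MvPolynomial ι F := ∑ δ ∈ D, monomial (Finsupp.equivFunOnFinite.symm δ)
    (pv F (weightedHomogeneousComponent (wt n) δ g) x)
  have hev : ∀ s : ι → K, eval (fun i => algebraMap K F (s i)) P =
      pv F g (fun i a => algebraMap K F (s i) * x i a) := by
    intro s
    have h1 : pv F g (fun i a => algebraMap K F (s i) * x i a) =
        ∑ δ ∈ D, pv F (weightedHomogeneousComponent (wt n) δ g)
          (fun i a => algebraMap K F (s i) * x i a) := by
      conv_lhs => rw [comp_sum g]
      unfold pv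
      rw [map_sum]
    rw [h1, map_sum]
    refine Finset.sum_congr rfl fun δ _ => ?_
    rw [wh_smul _ δ (weightedHomogeneousComponent_isWeightedHomogeneous δ g)
      (fun i => algebraMap K F (s i)) x, eval_monomial, Finsupp.prod_fintype _ _ (by simp), mul_comm]
    rfl
  have hP : P ≠ 0 := by
    intro hP0
    have h2 : coeff (Finsupp.equivFunOnFinite.symm δ0) P = 0 := by rw [hP0, coeff_zero]
    have h3 : coeff (Finsupp.equivFunOnFinite.symm δ0) P =
        ∑ δ ∈ D, if δ = δ0 then pv F (weightedHomogeneousComponent (wt n) δ g) x else 0 := by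
      simp only [P]
      rw [coeff_sum]
      refine Finset.sum_congr rfl fun δ _ => ?_
      rw [coeff_monomial]
      by_cases h : δ = δ0
      · rw [h, if_pos rfl, if_pos rfl]
      · rw [if_neg h, if_neg]
        intro h'
        exact h (Finsupp.equivFunOnFinite.symm.injective h')
    rw [h3, Finset.sum_ite_eq'] at h2
    split_ifs at h2 with h4
    · exact h0 h2
    · apply h0
      have h5 : weightedHomogeneousComponent (wt n) δ0 g = 0 := by
        apply weightedHomogeneousComponent_eq_zero'
        intro d hd h6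
        exact h4 (Finset.mem_image.2 ⟨d, hd, h6⟩)
      rw [h5]
      unfold pv
      rw [map_zero]
  by_contra hcon
  push Not at hcon
  apply hP
  refine funext_set (fun _ => (algebraMap K F) '' {a | a ≠ 0}) (fun _ => ?_) ?_
  · refine Set.Infinite.image (algebraMap K F).injective.injOn ?_
    exact Set.infinite_of_finite_compl (by
      have : ({a : K | a ≠ 0}ᶜ) = {0} := by
        ext a
        simp
      rw [this]
      exact Set.finite_singleton _)
  · intro y hy
    have h6 : ∀ i, ∃ a : K, a ≠ 0 ∧ algebraMap K F a = y i := fun i => hy i (Set.mem_univ _)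
    choose s hs1 hs2 using h6
    have h7 : y = fun i => algebraMap K F (s i) := funext fun i => (hs2 i).symm
    rw [h7, hev, hcon s hs1, map_zero]

/-- replacing the polynomials by their components -/
theorem comps [Infinite K] (G : Finset (Pol K n)) (Q : ∀ (F : Type) [Field F] [Algebra K F],
      Vs F n → Prop) (h1 : ∀ (F : Type) [Field F] [Algebra K F] (x : Vs F n), Opn F G x ↔ Q F x)
    (h2 : ∀ (F : Type) [Field F] [Algebra K F] (x : Vs F n) (s : ι → K), (∀ i, s i ≠ 0) →
      Q F (fun i a => algebraMap K F (s i) * x i a) → Q F x) :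
    ∃ A : Finset (Pol K n), (∀ g ∈ A, MH g) ∧
      ∀ (F : Type) [Field F] [Algebra K F] (x : Vs F n), Opn F A x ↔ Q F x := by
  classical
  refine ⟨G.biUnion fun g => (g.support.image (Finsupp.weight (wt n))).image
    fun δ => weightedHomogeneousComponent (wt n) δ g, ?_, ?_⟩
  · intro g hg
    obtain ⟨g', -, hg⟩ := Finset.mem_biUnion.1 hg
    obtain ⟨δ, -, rfl⟩ := Finset.mem_image.1 hg
    exact (mh_iff _).2 ⟨δ, weightedHomogeneousComponent_isWeightedHomogeneous δ g'⟩
  · intro F _ _ x
    constructor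
    · rintro ⟨g, hg, hne⟩
      obtain ⟨g', hg', hg⟩ := Finset.mem_biUnion.1 hg
      obtain ⟨δ, -, rfl⟩ := Finset.mem_image.1 hg
      obtain ⟨s, hs, hs'⟩ := exists_scale g' x δ hne
      exact h2 F x s hs ((h1 F _).1 ⟨g', hg', hs'⟩)
    · intro hQ
      obtain ⟨g, hg, hne⟩ := (h1 F x).2 hQ
      rw [comp_sum g] at hne
      unfold pv at hne
      rw [map_sum] at hne
      obtain ⟨δ, hδ, hne⟩ := Finset.exists_ne_zero_of_sum_ne_zero hne
      exact ⟨_, Finset.mem_biUnion.2 ⟨g, hg, Finset.mem_image_of_mem _ hδ⟩, hne⟩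

end

/-! ## The minors -/

/-- the blocks `z` and `(x, y)` -/
def nb (N : ℕ) : Bool → ℕ := fun b => bif b then 1 else 2 * N + 1

section

variable {K : Type} [Field K] {N k : ℕ}

/-- the generic vector in the plane -/
noncomputable def gv (e : Fin 2 × Fin (N + 1) ≃ Fin (2 * N + 1 + 1)) (A : Type) [CommRing A]
    (x : Vs A (nb N)) : Fin (N + 1) → A := fun c =>
  x true (0 : Fin 2) * x false (e (0, c)) + x true (1 : Fin 2) * x false (e (1, c))

theorem gd_minor (F : Type) [Field F] [Algebra K F] (M : Fin k → Matrix (Fin (N + 1)) (Fin (N + 1)) K)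
    (v : Fin (N + 1) → F) : Gd F M v ↔ ∃ f : Fin k → Fin (N + 1),
      (Matrix.of fun (t j : Fin k) => bil F (M t) v (Pi.single (f j) 1)).det ≠ 0 := by
  let A0 : Matrix (Fin k) (Fin (N + 1)) F := fun t a => bil F (M t) v (Pi.single a 1)
  constructor
  · intro h
    exact exists_minor A0 h
  · rintro ⟨f, hf⟩
    exact linInd_of_minor A0 f hf

theorem minors (e : Fin 2 × Fin (N + 1) ≃ Fin (2 * N + 1 + 1))
    (M : Fin k → Matrix (Fin (N + 1)) (Fin (N + 1)) K) :
    ∃ G : Finset (Pol K (nb N)), (∀ g ∈ G, MH g) ∧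
      ∀ (F : Type) [Field F] [Algebra K F] (x : Vs F (nb N)), Opn F G x ↔ Gd F M (gv e F x) := by
  classical
  let gen : Vs (Pol K (nb N)) (nb N) := fun i a => X ⟨i, a⟩
  let L : (Fin k → Fin (N + 1)) → Matrix (Fin k) (Fin k) (Pol K (nb N)) := fun f =>
    Matrix.of fun t j => bil (Pol K (nb N)) (M t) (gv e (Pol K (nb N)) gen) (Pi.single (f j) 1)
  refine ⟨univ.image fun f => (L f).det, ?_, ?_⟩
  · intro g hg
    obtain ⟨f, -, rfl⟩ := Finset.mem_image.1 hg
    refine (mh_iff _).2 ⟨_, det_wh (L f) (Pi.single true 1 + Pi.single false 1) ?_⟩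
    intro t j
    change IsWeightedHomogeneous (wt (nb N))
      (bil (Pol K (nb N)) (M t) (gv e (Pol K (nb N)) gen) (Pi.single (f j) 1)) _
    rw [bil_single_right]
    refine IsWeightedHomogeneous.sum _ _ _ fun p _ => ?_
    change IsWeightedHomogeneous (wt (nb N)) (C (M t p (f j)) * _) _
    apply IsWeightedHomogeneous.C_mul
    unfold gv
    refine IsWeightedHomogeneous.add ?_ ?_
    · exact (isWeightedHomogeneous_X K (wt (nb N)) (⟨true, (0 : Fin 2)⟩ : Var (nb N))).mul
        (isWeightedHomogeneous_X K (wt (nb N)) (⟨false, e (0, p)⟩ : Var (nb N)))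
    · exact (isWeightedHomogeneous_X K (wt (nb N)) (⟨true, (1 : Fin 2)⟩ : Var (nb N))).mul
        (isWeightedHomogeneous_X K (wt (nb N)) (⟨false, e (1, p)⟩ : Var (nb N)))
  · intro F _ _ x
    have hdet : ∀ f : Fin k → Fin (N + 1), pv F (L f).det x =
        (Matrix.of fun (t j : Fin k) => bil F (M t) (gv e F x) (Pi.single (f j) 1)).det := by
      intro f
      have h1 : pv F (L f).det x =
          (aeval (fun v : Var (nb N) => x v.1 v.2) : MvPolynomial (Var (nb N)) K →ₐ[K] F)
            (L f).det := rfl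
      rw [h1, AlgHom.map_det]
      congr 1
      ext t j
      change (aeval (fun v : Var (nb N) => x v.1 v.2) : MvPolynomial (Var (nb N)) K →ₐ[K] F)
        (bil (Pol K (nb N)) (M t) (gv e (Pol K (nb N)) gen) (Pi.single (f j) 1)) = _
      rw [← bil_map_single, Matrix.of_apply]
      congr 1
      funext c
      simp only [gv, gen, map_add, map_mul, aeval_X]
    rw [gd_minor]
    constructor
    · rintro ⟨g, hg, hne⟩
      obtain ⟨f, -, rfl⟩ := Finset.mem_image.1 hg
      rw [hdet] at hne
      exact ⟨f, hne⟩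
    · rintro ⟨f, hf⟩
      exact ⟨_, Finset.mem_image.2 ⟨f, Finset.mem_univ _, rfl⟩, by rw [hdet]; exact hf⟩

/-- cutting is the same as all -/
theorem cut_iff (hk : 1 ≤ k) (e : Fin 2 × Fin (N + 1) ≃ Fin (2 * N + 1 + 1))
    (M : Fin k → Matrix (Fin (N + 1)) (Fin (N + 1)) K) (G : Finset (Pol K (nb N)))
    (hG : ∀ (F : Type) [Field F] [Algebra K F] (x : Vs F (nb N)), Opn F G x ↔ Gd F M (gv e F x))
    (F : Type) [Field F] [Algebra K F] (x : Vs F (nb N)) :
    Cut F 2 true G x ↔ All F M (fun c => x false (e (0, c))) (fun c => x false (e (1, c))) := by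
  classical
  have key : ∀ (Mt : Matrix (Fin 2) (Fin 2) K) (z : Fin 2 → AlgebraicClosure F),
      Opn (AlgebraicClosure F) G
        (update (fun l a => algebraMap F (AlgebraicClosure F) (x l a)) true
          (fun a => ∑ b, algebraMap K (AlgebraicClosure F) (Mt a b) * z b)) ↔
      Gd (AlgebraicClosure F) M fun c =>
        (∑ b, algebraMap K (AlgebraicClosure F) (Mt 0 b) * z b) *
          algebraMap F (AlgebraicClosure F) (x false (e (0, c))) +
        (∑ b, algebraMap K (AlgebraicClosure F) (Mt 1 b) * z b) *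
          algebraMap F (AlgebraicClosure F) (x false (e (1, c))) := by
    intro Mt z
    rw [hG]
    have h1 : gv e (AlgebraicClosure F) (update (fun l a => algebraMap F (AlgebraicClosure F) (x l a))
        true (fun a => ∑ b, algebraMap K (AlgebraicClosure F) (Mt a b) * z b)) = fun c =>
        (∑ b, algebraMap K (AlgebraicClosure F) (Mt 0 b) * z b) *
          algebraMap F (AlgebraicClosure F) (x false (e (0, c))) +
        (∑ b, algebraMap K (AlgebraicClosure F) (Mt 1 b) * z b) *
          algebraMap F (AlgebraicClosure F) (x false (e (1, c))) := by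
      funext c
      unfold gv
      rw [update_self, update_of_ne (by decide)]
    rw [h1]
  constructor
  · rintro ⟨Mt, hMt⟩ z hz
    have hMt' : ∀ z : Fin 2 → AlgebraicClosure F, z ≠ 0 → Gd (AlgebraicClosure F) M fun c =>
        (∑ b, algebraMap K (AlgebraicClosure F) ((Mt : Matrix (Fin 2) (Fin 2) K) 0 b) * z b) *
          algebraMap F (AlgebraicClosure F) (x false (e (0, c))) +
        (∑ b, algebraMap K (AlgebraicClosure F) ((Mt : Matrix (Fin 2) (Fin 2) K) 1 b) * z b) *
          algebraMap F (AlgebraicClosure F) (x false (e (1, c))) :=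
      fun z hz => (key Mt z).1 (hMt z hz)
    obtain ⟨T, hT⟩ : ∃ T : Matrix (Fin 2) (Fin 2) K, T = Mt := ⟨_, rfl⟩
    rw [← hT] at hMt'
    let TΩ : Matrix (Fin 2) (Fin 2) (AlgebraicClosure F) := T.map (algebraMap K _)
    have hdet : TΩ.det ≠ 0 := by
      intro h0
      obtain ⟨v, hv, hv2⟩ := Matrix.exists_mulVec_eq_zero_iff.2 h0
      have h2 := hMt' v hv
      have h3 : ∀ a, ∑ b, algebraMap K (AlgebraicClosure F) (T a b) * v b = 0 := fun a =>
        congrFun hv2 a
      simp only [h3, zero_mul, add_zero] at h2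
      exact not_gd_zero hk _ M h2
    have h4 : TΩ.mulVec (TΩ⁻¹.mulVec z) = z := by
      rw [Matrix.mulVec_mulVec, Matrix.mul_nonsing_inv _ (isUnit_iff_ne_zero.2 hdet),
        Matrix.one_mulVec]
    have h5 := hMt' (TΩ⁻¹.mulVec z) (by
      intro h0
      rw [h0, Matrix.mulVec_zero] at h4
      exact hz h4.symm)
    have h6 : ∀ a, ∑ b, algebraMap K (AlgebraicClosure F) (T a b) * (TΩ⁻¹.mulVec z) b = z a :=
      fun a => congrFun h4 a
    simp only [h6] at h5
    exact h5
  · intro h
    refine ⟨(1 : Matrix (Fin 2) (Fin 2) K), fun z hz => (key 1 z).2 ?_⟩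
    have h7 : ∀ a, ∑ b, algebraMap K (AlgebraicClosure F) ((1 : Matrix (Fin 2) (Fin 2) K) a b) * z b
        = z a := by
      intro a
      rw [Finset.sum_eq_single a]
      · rw [Matrix.one_apply_eq, map_one, one_mul]
      · intro b _ hb
        rw [Matrix.one_apply_ne' hb, map_zero, zero_mul]
      · intro h
        exact absurd (Finset.mem_univ _) h
    simp only [h7]
    exact h z hz

theorem all_scale (M : Fin k → Matrix (Fin (N + 1)) (Fin (N + 1)) K) (F : Type) [Field F]
    [Algebra K F] (x y : Fin (N + 1) → F) (s t : F) (hs : s ≠ 0) (ht : t ≠ 0)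
    (h : All F M (fun a => s * x a) (fun a => t * y a)) : All F M x y := by
  intro z hz
  have hs' : algebraMap F (AlgebraicClosure F) s ≠ 0 := by
    rw [map_ne_zero]
    exact hs
  have ht' : algebraMap F (AlgebraicClosure F) t ≠ 0 := by
    rw [map_ne_zero]
    exact ht
  have h1 := h ![z 0 * (algebraMap F (AlgebraicClosure F) s)⁻¹,
    z 1 * (algebraMap F (AlgebraicClosure F) t)⁻¹] (by
      intro h0
      apply hz
      have e0 := congrFun h0 0
      have e1 := congrFun h0 1
      simp only [Matrix.cons_val_zero, Matrix.cons_val_one, Pi.zero_apply, mul_eq_zero,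
        inv_eq_zero, hs', ht', or_false] at e0 e1
      funext i
      fin_cases i
      · exact e0
      · exact e1)
  have h2 : (fun a => (![z 0 * (algebraMap F (AlgebraicClosure F) s)⁻¹,
      z 1 * (algebraMap F (AlgebraicClosure F) t)⁻¹] : Fin 2 → AlgebraicClosure F) 0 *
        algebraMap F (AlgebraicClosure F) (s * x a) +
      (![z 0 * (algebraMap F (AlgebraicClosure F) s)⁻¹,
      z 1 * (algebraMap F (AlgebraicClosure F) t)⁻¹] : Fin 2 → AlgebraicClosure F) 1 *
        algebraMap F (AlgebraicClosure F) (t * y a)) =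
      fun a => z 0 * algebraMap F (AlgebraicClosure F) (x a) +
        z 1 * algebraMap F (AlgebraicClosure F) (y a) := by
    funext a
    simp only [Matrix.cons_val_zero, Matrix.cons_val_one, map_mul]
    field_simp
  rw [h2] at h1
  exact h1

end

/-- job GM-ELA -/
theorem ela : Pool.Agent.Q35.SM.S_A → Pool.Agent.Q35.GM.S_ELA := by
  classical
  intro hA K _ _ N k M hk
  have hcard : Fintype.card (Fin 2 × Fin (N + 1)) = 2 * N + 1 + 1 := by
    rw [Fintype.card_prod, Fintype.card_fin, Fintype.card_fin]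
    ring
  obtain ⟨e⟩ : Nonempty (Fin 2 × Fin (N + 1) ≃ Fin (2 * N + 1 + 1)) :=
    ⟨Fintype.equivFinOfCardEq hcard⟩
  obtain ⟨G, hG1, hG2⟩ := minors e M
  obtain ⟨G', hG'1, -, hG'3⟩ := hA K Bool (nb N) 2 true G (by norm_num) hG1
  -- substitution
  let sub : Var (nb N) → Pol K (nn N) := fun v =>
    match v with
    | ⟨true, _⟩ => 0
    | ⟨false, c⟩ => X ⟨(e.symm c).1, (e.symm c).2⟩
  let φ : Pol K (nb N) →ₐ[K] Pol K (nn N) := aeval sub
  have hφ : ∀ (F : Type) [Field F] [Algebra K F] (x : Vs F (nn N)), ∃ x' : Vs F (nb N),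
      (∀ i c, x' false (e (i, c)) = x i c) ∧ ∀ g, pv F (φ g) x = pv F g x' := by
    intro F _ _ x
    let x' : Vs F (nb N) := fun b =>
      match b with
      | true => fun _ => 0
      | false => fun c => x (e.symm c).1 (e.symm c).2
    refine ⟨x', ?_, ?_⟩
    · intro i c
      change x (e.symm (e (i, c))).1 (e.symm (e (i, c))).2 = x i c
      rw [e.symm_apply_apply]
    · intro g
      unfold pv
      have h1 : ((aeval (fun v : Var (nn N) => x v.1 v.2) :
          MvPolynomial (Var (nn N)) K →ₐ[K] F)).comp φ =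
          (aeval (fun v : Var (nb N) => x' v.1 v.2) : MvPolynomial (Var (nb N)) K →ₐ[K] F) := by
        apply MvPolynomial.algHom_ext
        rintro ⟨b, c⟩
        rw [AlgHom.comp_apply, aeval_X, aeval_X]
        cases b
        · change (aeval _) (X (⟨(e.symm c).1, (e.symm c).2⟩ : Var (nn N))) = _
          rw [aeval_X]
        · change (aeval _) (0 : Pol K (nn N)) = _
          rw [map_zero]
      rw [← h1]
      rfl
  refine comps (G'.image φ) (fun F _ _ x => All F M (x 0) (x 1)) ?_ ?_
  · intro F _ _ x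
    obtain ⟨x', hx1, hx2⟩ := hφ F x
    have h1 : Opn F (G'.image φ) x ↔ Opn F G' x' := by
      constructor
      · rintro ⟨g, hg, hne⟩
        obtain ⟨g', hg', rfl⟩ := Finset.mem_image.1 hg
        rw [hx2] at hne
        exact ⟨g', hg', hne⟩
      · rintro ⟨g, hg, hne⟩
        exact ⟨_, Finset.mem_image_of_mem _ hg, by rw [hx2]; exact hne⟩
    rw [h1, hG'3, cut_iff hk e M G hG2]
    have h2 : (fun c => x' false (e (0, c))) = x 0 := funext fun c => hx1 0 c
    have h3 : (fun c => x' false (e (1, c))) = x 1 := funext fun c => hx1 1 c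
    rw [h2, h3]
  · intro F _ _ x s hs h
    exact all_scale M F (x 0) (x 1) _ _ ((map_ne_zero _).2 (hs 0)) ((map_ne_zero _).2 (hs 1)) h

end Pool.Agent.Q68.GM
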