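import Pool.Agent.Q68.GM.Ela

/-!
Project GM, job ELP: elimination, in the Pluecker coordinates
-/

set_option autoImplicit false

namespace Pool.Agent.Q68.GM

open Finset Function MvPolynomial
open Pool.Agent.Q35.GM
open Pool.Agent.Q35.SM (Cof Vs Var Pol ev pv MH Opn Cut)
open Pool.Agent.Q298.SM (wt mh_iff weight_wt)

section

variable {K : Type} [Field K] {m k : ℕ}

/-- the condition does not depend on the basis -/
theorem all_basis (hk : 1 ≤ k) (M : Fin k → Matrix (Fin m) (Fin m) K) (F : Type) [Field F]
    [Algebra K F] (x y : Fin m → F) (a b c d : F)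
    (h : All F M (fun i => a * x i + b * y i) (fun i => c * x i + d * y i)) : All F M x y := by
  let T : Matrix (Fin 2) (Fin 2) (AlgebraicClosure F) :=
    !![algebraMap F _ a, algebraMap F _ c; algebraMap F _ b, algebraMap F _ d]
  have key : ∀ z : Fin 2 → AlgebraicClosure F,
      (fun i => z 0 * algebraMap F (AlgebraicClosure F) (a * x i + b * y i) +
        z 1 * algebraMap F (AlgebraicClosure F) (c * x i + d * y i)) =
      fun i => (T.mulVec z) 0 * algebraMap F (AlgebraicClosure F) (x i) +
        (T.mulVec z) 1 * algebraMap F (AlgebraicClosure F) (y i) := by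
    intro z
    funext i
    simp only [T, Matrix.mulVec, dotProduct, Fin.sum_univ_two, Matrix.of_apply,
      Matrix.cons_val_zero, Matrix.cons_val_one, map_add, map_mul, Matrix.cons_val']
    ring
  have hdet : T.det ≠ 0 := by
    intro h0
    obtain ⟨v, hv, hv2⟩ := Matrix.exists_mulVec_eq_zero_iff.2 h0
    have h2 := h v hv
    rw [key, hv2] at h2
    simp only [Pi.zero_apply, zero_mul, add_zero] at h2
    exact not_gd_zero hk _ M h2
  intro z hz
  have h4 : T.mulVec (T⁻¹.mulVec z) = z := by
    rw [Matrix.mulVec_mulVec, Matrix.mul_nonsing_inv _ (isUnit_iff_ne_zero.2 hdet),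
      Matrix.one_mulVec]
  have h5 := h (T⁻¹.mulVec z) (by
    intro h0
    rw [h0, Matrix.mulVec_zero] at h4
    exact hz h4.symm)
  rw [key, h4] at h5
  exact h5

theorem all_basis' (M : Fin k → Matrix (Fin m) (Fin m) K) (F : Type) [Field F]
    [Algebra K F] (x y : Fin m → F) (a b c d : F) (hne : a * d - b * c ≠ 0)
    (h : All F M x y) : All F M (fun i => a * x i + b * y i) (fun i => c * x i + d * y i) := by
  let T : Matrix (Fin 2) (Fin 2) (AlgebraicClosure F) :=
    !![algebraMap F _ a, algebraMap F _ c; algebraMap F _ b, algebraMap F _ d]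
  have key : ∀ z : Fin 2 → AlgebraicClosure F,
      (fun i => z 0 * algebraMap F (AlgebraicClosure F) (a * x i + b * y i) +
        z 1 * algebraMap F (AlgebraicClosure F) (c * x i + d * y i)) =
      fun i => (T.mulVec z) 0 * algebraMap F (AlgebraicClosure F) (x i) +
        (T.mulVec z) 1 * algebraMap F (AlgebraicClosure F) (y i) := by
    intro z
    funext i
    simp only [T, Matrix.mulVec, dotProduct, Fin.sum_univ_two, Matrix.of_apply,
      Matrix.cons_val_zero, Matrix.cons_val_one, map_add, map_mul, Matrix.cons_val']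
    ring
  have hdet : T.det ≠ 0 := by
    rw [Matrix.det_fin_two]
    simp only [T, Matrix.of_apply, Matrix.cons_val_zero, Matrix.cons_val_one, Matrix.cons_val']
    rw [← map_mul, ← map_mul, ← map_sub, map_ne_zero]
    intro h0
    apply hne
    linear_combination h0
  intro z hz
  rw [key]
  refine h _ ?_
  intro h0
  exact hz (Matrix.eq_zero_of_mulVec_eq_zero hdet h0)

theorem all_plu (hk : 1 ≤ k) (M : Fin k → Matrix (Fin m) (Fin m) K) (F : Type) [Field F]
    [Algebra K F] (x y : Fin m → F) : All F M x y ↔
      ∃ a b, All F M (fun i => plu x y (i, b)) (fun i => plu x y (i, a)) := by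
  constructor
  · intro h
    have hp : plu x y ≠ 0 := by
      rw [← li_iff_plu]
      by_contra hli
      rw [LinearIndependent.pair_iff] at hli
      push Not at hli
      obtain ⟨s, t, hst, hne⟩ := hli
      have h1 := h ![algebraMap F _ s, algebraMap F _ t] (by
        intro h0
        have e0 := congrFun h0 0
        have e1 := congrFun h0 1
        simp only [Matrix.cons_val_zero, Matrix.cons_val_one, Pi.zero_apply, map_eq_zero] at e0 e1
        exact hne e0 e1)
      have h2 : (fun a => (![algebraMap F (AlgebraicClosure F) s,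
            algebraMap F (AlgebraicClosure F) t] : Fin 2 → AlgebraicClosure F) 0 *
            algebraMap F (AlgebraicClosure F) (x a) +
          (![algebraMap F (AlgebraicClosure F) s,
            algebraMap F (AlgebraicClosure F) t] : Fin 2 → AlgebraicClosure F) 1 *
            algebraMap F (AlgebraicClosure F) (y a)) = fun _ => 0 := by
        funext a
        simp only [Matrix.cons_val_zero, Matrix.cons_val_one]
        rw [← map_mul, ← map_mul, ← map_add]
        have h3 := congrFun hst a
        simp only [Pi.add_apply, Pi.smul_apply, smul_eq_mul, Pi.zero_apply] at h3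
        rw [h3, map_zero]
      rw [h2] at h1
      exact not_gd_zero hk _ M h1
    obtain ⟨⟨a, b⟩, hab⟩ := Function.ne_iff.1 hp
    refine ⟨a, b, ?_⟩
    have h4 := all_basis' M F x y (y b) (-x b) (y a) (-x a) (by
      simp only [plu, Pi.zero_apply] at hab
      intro h0
      apply hab
      linear_combination -h0) h
    have h5 : (fun i => plu x y (i, b)) = fun i => y b * x i + -x b * y i := by
      funext i
      simp only [plu]
      ring
    have h6 : (fun i => plu x y (i, a)) = fun i => y a * x i + -x a * y i := by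
      funext i
      simp only [plu]
      ring
    rw [h5, h6]
    exact h4
  · rintro ⟨a, b, h⟩
    refine all_basis hk M F x y (y b) (-x b) (y a) (-x a) ?_
    have h5 : (fun i => plu x y (i, b)) = fun i => y b * x i + -x b * y i := by
      funext i
      simp only [plu]
      ring
    have h6 : (fun i => plu x y (i, a)) = fun i => y a * x i + -x a * y i := by
      funext i
      simp only [plu]
      ring
    rw [← h5, ← h6]
    exact h

/-- two columns of the Pluecker matrix -/
def cv {N : ℕ} {F : Type} [Field F] (x y : Fin (N + 1) → F) (a b : Fin (N + 1)) : Vs F (nn N) :=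
  fun l i => plu x y (i, if l = 0 then b else a)

theorem cv_zero {N : ℕ} {F : Type} [Field F] (x y : Fin (N + 1) → F) (a b : Fin (N + 1)) :
    cv x y a b 0 = fun i => plu x y (i, b) := by
  funext i
  unfold cv
  rw [if_pos rfl]

theorem cv_one {N : ℕ} {F : Type} [Field F] (x y : Fin (N + 1) → F) (a b : Fin (N + 1)) :
    cv x y a b 1 = fun i => plu x y (i, a) := by
  funext i
  unfold cv
  rw [if_neg (by decide)]

/-- the substitution of two columns -/
noncomputable def sbp {N : ℕ} (K : Type) [Field K] (a b : Fin (N + 1)) :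
    Pol K (nn N) →ₐ[K] MvPolynomial (Fin (N + 1) × Fin (N + 1)) K :=
  aeval fun v : Var (nn N) => X (v.2, if v.1 = 0 then b else a)

theorem sbp_eval {N : ℕ} (F : Type) [Field F] [Algebra K F] (x y : Fin (N + 1) → F)
    (a b : Fin (N + 1)) (g : Pol K (nn N)) :
    (aeval (plu x y) : MvPolynomial (Fin (N + 1) × Fin (N + 1)) K →ₐ[K] F) (sbp K a b g) =
      pv F g (cv x y a b) := by
  have h1 : ((aeval (plu x y) : MvPolynomial (Fin (N + 1) × Fin (N + 1)) K →ₐ[K] F)).comp
      (sbp K a b) = (aeval (fun v : Var (nn N) => cv x y a b v.1 v.2) :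
        MvPolynomial (Var (nn N)) K →ₐ[K] F) := by
    apply MvPolynomial.algHom_ext
    rintro ⟨l, c⟩
    unfold sbp
    rw [AlgHom.comp_apply, aeval_X, aeval_X, aeval_X]
    rfl
  unfold pv
  rw [← h1]
  rfl

theorem sbp_hom {N : ℕ} (a b : Fin (N + 1)) (g : Pol K (nn N)) (hg : MH g) :
    ∃ e, (sbp K a b g).IsHomogeneous e := by
  obtain ⟨δ, hδ⟩ := hg
  have h1 : g.IsHomogeneous (δ 0 + δ 1) := by
    intro m hm
    have h2 := hδ m (mem_support_iff.2 hm)
    rw [Finsupp.weight_apply, Finsupp.sum_fintype _ _ (by simp)]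
    simp only [Pi.one_apply, smul_eq_mul, mul_one]
    rw [Fintype.sum_sigma, Fin.sum_univ_two, h2 0, h2 1]
  exact ⟨1 * (δ 0 + δ 1), h1.aeval _ (fun v => isHomogeneous_X _ _)⟩

end

/-- job GM-ELP -/
theorem elp : Pool.Agent.Q35.GM.S_ELA → Pool.Agent.Q35.GM.S_ELP := by
  classical
  intro hE K _ _ N k M hk
  obtain ⟨A, hA1, hA2⟩ := hE K N k M hk
  refine ⟨univ.biUnion fun a => univ.biUnion fun b => A.image fun g => sbp K a b g, ?_, ?_⟩
  · intro g hg
    obtain ⟨a, -, hg⟩ := Finset.mem_biUnion.1 hg
    obtain ⟨b, -, hg⟩ := Finset.mem_biUnion.1 hg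
    obtain ⟨g', hg', rfl⟩ := Finset.mem_image.1 hg
    exact sbp_hom a b g' (hA1 g' hg')
  · intro F _ _ x y
    rw [all_plu hk]
    constructor
    · rintro ⟨g, hg, hne⟩
      obtain ⟨a, -, hg⟩ := Finset.mem_biUnion.1 hg
      obtain ⟨b, -, hg⟩ := Finset.mem_biUnion.1 hg
      obtain ⟨g', hg', rfl⟩ := Finset.mem_image.1 hg
      have h1 : pv F g' (cv x y a b) ≠ 0 := by
        rw [← sbp_eval]
        exact hne
      have h2 := (hA2 F (cv x y a b)).1 ⟨g', hg', h1⟩
      rw [cv_zero, cv_one] at h2
      exact ⟨a, b, h2⟩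
    · rintro ⟨a, b, h⟩
      have h2 := (hA2 F (cv x y a b)).2 (by
        rw [cv_zero, cv_one]
        exact h)
      obtain ⟨g, hg, hne⟩ := h2
      refine ⟨sbp K a b g, Finset.mem_biUnion.2 ⟨a, Finset.mem_univ _,
        Finset.mem_biUnion.2 ⟨b, Finset.mem_univ _, Finset.mem_image_of_mem _ hg⟩⟩, ?_⟩
      rw [sbp_eval]
      exact hne

end Pool.Agent.Q68.GM
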