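import Pool.Agent.Q68.GM.Bas
import Pool.Agent.Q298.SM.F

/-!
Project GM, job KER: few algebraically independent coordinates in the kernels
-/

set_option autoImplicit false

namespace Pool.Agent.Q68.GM

open Finset Function MvPolynomial
open Pool.Agent.Q35.GM

section

variable {K : Type} [Field K] {m k : ℕ}

/-- specialisation of singular points -/
theorem spec (M : Fin k → Matrix (Fin m) (Fin m) K) (F : Type) [Field F] [Algebra K F]
    (x y : Fin m → F) (μ : Fin k → F) (hμ : μ ≠ 0) (hxy : plu x y ≠ 0)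
    (h0 : ∀ t, bil F (M t) x y = 0)
    (h1 : ∀ a, ∑ t, μ t * bil F (M t) x (Pi.single a 1) = 0)
    (h2 : ∀ a, ∑ t, μ t * bil F (M t) y (Pi.single a 1) = 0) (hA : ∀ t, Alt (M t)) :
    ¬ Smo M := by
  classical
  intro hS
  obtain ⟨t0, ht0⟩ := Function.ne_iff.1 hμ
  obtain ⟨⟨a0, b0⟩, hab⟩ := Function.ne_iff.1 hxy
  simp only [plu, Pi.zero_apply] at hab ht0
  set d : F := x a0 * y b0 - x b0 * y a0 with hd
  set S : Set F := (Set.range x) ∪ Set.range y ∪ Set.range μ ∪ {d⁻¹} ∪ {(μ t0)⁻¹} with hSd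
  have hSf : S.Finite := by
    refine Set.Finite.union (Set.Finite.union (Set.Finite.union (Set.Finite.union ?_ ?_) ?_) ?_) ?_
    · exact Set.finite_range _
    · exact Set.finite_range _
    · exact Set.finite_range _
    · exact Set.finite_singleton _
    · exact Set.finite_singleton _
  obtain ⟨ψ⟩ := Pool.Agent.Q298.SM.exists_hom K F S hSf
  set R := Algebra.adjoin K S with hR
  have g1 : ∀ a, x a ∈ R := fun a =>
    Algebra.subset_adjoin (Or.inl (Or.inl (Or.inl (Or.inl ⟨a, rfl⟩))))
  have g2 : ∀ a, y a ∈ R := fun a =>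
    Algebra.subset_adjoin (Or.inl (Or.inl (Or.inl (Or.inr ⟨a, rfl⟩))))
  have g3 : ∀ t, μ t ∈ R := fun t => Algebra.subset_adjoin (Or.inl (Or.inl (Or.inr ⟨t, rfl⟩)))
  have g4 : d⁻¹ ∈ R := Algebra.subset_adjoin (Or.inl (Or.inr rfl))
  have g5 : (μ t0)⁻¹ ∈ R := Algebra.subset_adjoin (Or.inr rfl)
  let xR : Fin m → R := fun a => ⟨x a, g1 a⟩
  let yR : Fin m → R := fun a => ⟨y a, g2 a⟩
  let μR : Fin k → R := fun t => ⟨μ t, g3 t⟩
  have e0 : ∀ t, bil R (M t) xR yR = 0 := by
    intro t
    have := bil_map R.val (M t) xR yR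
    apply Subtype.ext
    change R.val (bil R (M t) xR yR) = 0
    rw [← this]
    exact h0 t
  have e1 : ∀ a, ∑ t, μR t * bil R (M t) xR (Pi.single a 1) = 0 := by
    intro a
    apply Subtype.ext
    change R.val (∑ t, μR t * bil R (M t) xR (Pi.single a 1)) = 0
    rw [map_sum, ← h1 a]
    refine Finset.sum_congr rfl fun t _ => ?_
    rw [map_mul, ← bil_map_single]
    rfl
  have e2 : ∀ a, ∑ t, μR t * bil R (M t) yR (Pi.single a 1) = 0 := by
    intro a
    apply Subtype.ext
    change R.val (∑ t, μR t * bil R (M t) yR (Pi.single a 1)) = 0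
    rw [map_sum, ← h2 a]
    refine Finset.sum_congr rfl fun t _ => ?_
    rw [map_mul, ← bil_map_single]
    rfl
  have n2 : (fun t => ψ (μR t)) ≠ 0 := by
    intro h0'
    have h5 := congrFun h0' t0
    have h6 : μR t0 * ⟨(μ t0)⁻¹, g5⟩ = 1 := Subtype.ext (mul_inv_cancel₀ ht0)
    have h7 := congrArg ψ h6
    rw [map_mul, map_one] at h7
    simp only [Pi.zero_apply] at h5
    rw [h5, zero_mul] at h7
    exact zero_ne_one h7
  have n1 : plu (fun a => ψ (xR a)) (fun a => ψ (yR a)) ≠ 0 := by
    intro h0'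
    have h5 := congrFun h0' (a0, b0)
    simp only [plu, Pi.zero_apply] at h5
    have h6 : (xR a0 * yR b0 - xR b0 * yR a0) * ⟨d⁻¹, g4⟩ = 1 := by
      apply Subtype.ext
      change (x a0 * y b0 - x b0 * y a0) * d⁻¹ = 1
      exact mul_inv_cancel₀ hab
    have h7 := congrArg ψ h6
    rw [map_mul, map_one, map_sub, map_mul, map_mul, h5, zero_mul] at h7
    exact zero_ne_one h7
  have f0 : ∀ t, bil (AlgebraicClosure K) (M t) (fun a => ψ (xR a)) (fun a => ψ (yR a)) = 0 := by
    intro t
    rw [bil_map, e0, map_zero]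
  obtain ⟨v, hv⟩ := hS _ _ ((li_iff_plu _ _).2 n1) f0 _ n2
  have ex : ∀ (z : Fin m → R), (∀ a, ∑ t, μR t * bil R (M t) z (Pi.single a 1) = 0) →
      ∑ t, ψ (μR t) * bil (AlgebraicClosure K) (M t) (fun a => ψ (z a)) v = 0 := by
    intro z hz
    have h9 : ∀ t, ψ (μR t) * bil (AlgebraicClosure K) (M t) (fun a => ψ (z a)) v =
        ∑ a, v a * ψ (μR t * bil R (M t) z (Pi.single a 1)) := by
      intro t
      rw [bil_expand, Finset.mul_sum]
      refine Finset.sum_congr rfl fun a _ => ?_
      rw [bil_map_single, map_mul]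
      ring
    simp only [h9]
    rw [Finset.sum_comm]
    refine Finset.sum_eq_zero fun a _ => ?_
    rw [← Finset.mul_sum, ← map_sum, hz a, map_zero, mul_zero]
  rcases hv with hv | hv
  · exact hv (ex xR e1)
  · apply hv
    have h8 : ∀ t, ψ (μR t) * bil (AlgebraicClosure K) (M t) v (fun a => ψ (yR a)) =
        -(ψ (μR t) * bil (AlgebraicClosure K) (M t) (fun a => ψ (yR a)) v) := by
      intro t
      rw [bil_skew _ _ (hA t)]
      ring
    simp only [h8, Finset.sum_neg_distrib, ex yR e2, neg_zero]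

/-- the matrix of the combination of the forms -/
def cmb (F : Type) [Field F] [Algebra K F] (M : Fin k → Matrix (Fin m) (Fin m) K)
    (μ : Fin k → F) : Matrix (Fin m) (Fin m) F :=
  fun q p => ∑ t, μ t * algebraMap K F (M t p q)

theorem cmb_mulVec (F : Type) [Field F] [Algebra K F] (M : Fin k → Matrix (Fin m) (Fin m) K)
    (μ : Fin k → F) (u : Fin m → F) (q : Fin m) :
    (cmb F M μ).mulVec u q = ∑ t, μ t * bil F (M t) u (Pi.single q 1) := by
  simp only [bil_single_right, Matrix.mulVec, dotProduct, cmb, Finset.sum_mul, Finset.mul_sum]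
  rw [Finset.sum_comm]
  refine Finset.sum_congr rfl fun t _ => ?_
  refine Finset.sum_congr rfl fun p _ => ?_
  ring

/-- the kernels have dimension at most `k` -/
theorem ker_le [CharZero K] (M : Fin k → Matrix (Fin m) (Fin m) K) (hA : ∀ t, Alt (M t))
    (hS : Smo M) (F : Type) [Field F] [Algebra K F] (μ : Fin k → F) (hμ : μ ≠ 0) :
    Module.finrank F (LinearMap.ker (cmb F M μ).mulVecLin) ≤ k := by
  classical
  by_contra hcon
  push Not at hcon
  obtain ⟨t0, ht0⟩ := Function.ne_iff.1 hμ
  have hk : 1 ≤ k := by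
    have := t0.2
    omega
  set E := LinearMap.ker (cmb F M μ).mulVecLin with hE
  have hEmem : ∀ u : Fin m → F, u ∈ E ↔ ∀ q, ∑ t, μ t * bil F (M t) u (Pi.single q 1) = 0 := by
    intro u
    rw [hE, LinearMap.mem_ker]
    constructor
    · intro h q
      rw [← cmb_mulVec]
      exact congrFun h q
    · intro h
      funext q
      rw [Matrix.mulVecLin_apply, cmb_mulVec, h q, Pi.zero_apply]
  have hpos : 0 < Module.finrank F E := by omega
  have _ : Nontrivial E := Module.finrank_pos_iff.1 hpos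
  obtain ⟨x, hx⟩ := exists_ne (0 : E)
  let Φ : E →ₗ[F] (Fin k → F) :=
    (LinearMap.pi fun t => bilR F (M t) (x : Fin m → F)).comp E.subtype
  have hΦ : ∀ (y : E) t, Φ y t = bil F (M t) (x : Fin m → F) (y : Fin m → F) := fun _ _ => rfl
  let ℓ : (Fin k → F) →ₗ[F] F := ∑ t, μ t • LinearMap.proj t
  have hℓ : ∀ c : Fin k → F, ℓ c = ∑ t, μ t * c t := by
    intro c
    simp [ℓ, LinearMap.sum_apply]
  have hℓ0 : LinearMap.range ℓ = ⊤ := by
    rw [LinearMap.range_eq_top]
    apply LinearMap.surjective_of_ne_zero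
    intro h
    have h1 : ℓ (Pi.single t0 1) = 0 := by rw [h, LinearMap.zero_apply]
    rw [hℓ, Finset.sum_eq_single t0] at h1
    · rw [Pi.single_eq_same, mul_one] at h1
      exact ht0 h1
    · intro b _ hb
      rw [Pi.single_eq_of_ne hb, mul_zero]
    · intro h
      exact absurd (Finset.mem_univ _) h
  have hℓk := ℓ.finrank_range_add_finrank_ker
  rw [hℓ0, finrank_top, Module.finrank_self, Module.finrank_pi, Fintype.card_fin] at hℓk
  have hrange : LinearMap.range Φ ≤ LinearMap.ker ℓ := by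
    rintro _ ⟨y, rfl⟩
    rw [LinearMap.mem_ker, hℓ]
    have h1 := (hEmem x).1 x.2
    have h2 : ∀ t, μ t * Φ y t =
        ∑ a, (y : Fin m → F) a * (μ t * bil F (M t) (x : Fin m → F) (Pi.single a 1)) := by
      intro t
      rw [hΦ, bil_expand, Finset.mul_sum]
      refine Finset.sum_congr rfl fun a _ => ?_
      ring
    simp only [h2]
    rw [Finset.sum_comm]
    refine Finset.sum_eq_zero fun a _ => ?_
    rw [← Finset.mul_sum, h1 a, mul_zero]
  have h3 := Submodule.finrank_mono hrange
  have h4 := Φ.finrank_range_add_finrank_ker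
  have h5 : 1 < Module.finrank F (LinearMap.ker Φ) := by omega
  have hxk : x ∈ LinearMap.ker Φ := by
    rw [LinearMap.mem_ker]
    funext t
    rw [hΦ, bil_self F (M t) (hA t), Pi.zero_apply]
  obtain ⟨y, hy⟩ := exists_linearIndependent_pair_of_one_lt_finrank h5
    (x := (⟨x, hxk⟩ : LinearMap.ker Φ)) (by
      intro h
      exact hx (congrArg Subtype.val h))
  have h6 := (hy.map' (LinearMap.ker Φ).subtype (Submodule.ker_subtype _)).map' E.subtype
    (Submodule.ker_subtype _)
  have h7 : (E.subtype ∘ ((LinearMap.ker Φ).subtype ∘ ![(⟨x, hxk⟩ : LinearMap.ker Φ), y])) =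
      ![(x : Fin m → F), ((y : E) : Fin m → F)] := by
    funext i
    fin_cases i <;> rfl
  rw [h7] at h6
  refine spec M F (x : Fin m → F) ((y : E) : Fin m → F) μ hμ ((li_iff_plu _ _).1 h6) ?_
    ((hEmem _).1 x.2) ((hEmem _).1 (y : E).2) hA hS
  intro t
  rw [← hΦ]
  have h8 : Φ (y : E) = 0 := y.2
  rw [h8, Pi.zero_apply]

/-- a nonzero minor of the size of the rank -/
theorem exists_minor_rank {F : Type} [Field F] (T : Matrix (Fin m) (Fin m) F) :
    ∃ (r : ℕ) (f g : Fin r → Fin m), r = T.rank ∧ (T.submatrix f g).det ≠ 0 := by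
  classical
  have hr := T.rank_eq_finrank_span_row
  obtain ⟨w, hw1, -, hw2⟩ := Submodule.exists_fun_fin_finrank_span_eq F (Set.range T.row)
  choose f hf using hw1
  obtain ⟨g, hg⟩ := Pool.Agent.Q298.SM.exists_minor (Matrix.of w) hw2
  refine ⟨_, f, g, hr.symm, ?_⟩
  have h1 : T.submatrix f g = (Matrix.of w).submatrix id g := by
    ext i j
    have := congrFun (hf i) (g j)
    simp only [Matrix.submatrix_apply, id_eq, Matrix.of_apply]
    rw [← this]
    rfl
  rw [h1]
  exact hg

/-- the case where one coefficient is `1` -/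
theorem ker_aux [CharZero K] (M : Fin k → Matrix (Fin m) (Fin m) K) (hA : ∀ t, Alt (M t))
    (hS : Smo M) (F : Type) [Field F] [Algebra K F] (μ : Fin k → F) (t0 : Fin k) (ht0 : μ t0 = 1)
    (u : Fin m → F) (B : Finset (Fin m))
    (hu : ∀ q, ∑ t, μ t * bil F (M t) u (Pi.single q 1) = 0)
    (h : AlgebraicIndependent K fun b : B => u b) : B.card < 2 * k := by
  classical
  have hμ : μ ≠ 0 := by
    intro h0
    rw [h0] at ht0
    exact zero_ne_one ht0
  have hk : 1 ≤ k := by
    have := t0.2
    omega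
  set T := cmb F M μ with hT
  have hker := ker_le M hA hS F μ hμ
  rw [← hT] at hker
  have h1 := T.mulVecLin.finrank_range_add_finrank_ker
  rw [Module.finrank_pi, Fintype.card_fin] at h1
  obtain ⟨r, f, g, hr, hdet⟩ := exists_minor_rank T
  have hr' : Module.finrank F (LinearMap.range T.mulVecLin) = r := hr.symm
  have hTu : T.mulVec u = 0 := by
    funext q
    rw [hT, cmb_mulVec, hu q, Pi.zero_apply]
  have hginj : Injective g := by
    intro i j hij
    by_contra hne
    exact hdet (Matrix.det_zero_of_column_eq hne fun a => by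
      rw [Matrix.submatrix_apply, Matrix.submatrix_apply, hij])
  set J : Finset (Fin m) := univ.image g with hJ
  have hJc : J.card = r := by
    rw [hJ, Finset.card_image_of_injective _ hginj, Finset.card_univ, Fintype.card_fin]
  set S : Finset F := (univ.erase t0).image μ ∪ (Jᶜ).image u with hSd
  have hScard : S.card ≤ (k - 1) + (m - r) := by
    refine (Finset.card_union_le _ _).trans (add_le_add ?_ ?_)
    · refine Finset.card_image_le.trans ?_
      rw [Finset.card_erase_of_mem (Finset.mem_univ _), Finset.card_univ, Fintype.card_fin]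
    · refine Finset.card_image_le.trans ?_
      rw [Finset.card_compl, hJc, Fintype.card_fin]
  set L := IntermediateField.adjoin K (S : Set F) with hL
  have hSL : ∀ s ∈ S, s ∈ L := fun s hs =>
    IntermediateField.subset_adjoin K _ (Finset.mem_coe.2 hs)
  have hμL : ∀ t, μ t ∈ L := by
    intro t
    by_cases ht : t = t0
    · rw [ht, ht0]
      exact L.one_mem
    · exact hSL _ (Finset.mem_union_left _ (Finset.mem_image_of_mem _
        (Finset.mem_erase.2 ⟨ht, Finset.mem_univ _⟩)))
  have hTL : ∀ p q, T p q ∈ L := by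
    intro p q
    rw [hT]
    unfold cmb
    exact L.sum_mem fun t _ => L.mul_mem (hμL t) (L.algebraMap_mem _)
  have huL : ∀ c, c ∉ J → u c ∈ L := fun c hc =>
    hSL _ (Finset.mem_union_right _ (Finset.mem_image_of_mem _ (Finset.mem_compl.2 hc)))
  have hsol : (T.submatrix f g).mulVec (fun i => u (g i)) =
      fun i => -∑ c ∈ Jᶜ, T (f i) c * u c := by
    funext i
    have h2 := congrFun hTu (f i)
    simp only [Matrix.mulVec, dotProduct, Pi.zero_apply] at h2
    rw [← Finset.sum_add_sum_compl J, hJ, Finset.sum_image (fun a _ b _ hab => hginj hab)] at h2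
    simp only [Matrix.mulVec, dotProduct, Matrix.submatrix_apply]
    rw [← hJ] at h2
    linear_combination h2
  have hall : ∀ c, u c ∈ L := by
    intro c
    by_cases hc : c ∈ J
    · obtain ⟨i, -, rfl⟩ := Finset.mem_image.1 hc
      exact mem_of_mulVec L (T.submatrix f g) (fun i j => hTL _ _) hdet _ _
        (fun i => L.neg_mem (L.sum_mem fun c hc =>
          L.mul_mem (hTL _ _) (huL c (Finset.mem_compl.1 hc)))) hsol i
    · exact huL c hc
  have hfin := cnt_adjoin S (fun b : B => u b) (fun b => hall b) h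
  rw [Fintype.card_coe] at hfin
  omega

end

/-- job GM-KER -/
theorem ker : Pool.Agent.Q35.GM.S_KER := by
  intro K _ _ m k M hA hS F _ _ μ u B hμ hv h
  obtain ⟨t0, ht0⟩ := Function.ne_iff.1 hμ
  refine ker_aux M hA hS F (fun t => (μ t0)⁻¹ * μ t) t0 (inv_mul_cancel₀ ht0) u B ?_ h
  intro q
  have h1 := hv (Pi.single q 1)
  simp only [mul_assoc]
  rw [← Finset.mul_sum, h1, mul_zero]

end Pool.Agent.Q68.GM
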